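import Pool.Agent.TH345.ET.X

/-!
# Multiplicative combinations of boundary values
-/

set_option autoImplicit false

namespace Pool.Agent.H789.HW

open Finset Filter Topology MeasureTheory NumberField IsDedekindDomain
open Pool.Agent.TH339.MP (PP FF tm bl ap radial_x ae_notMem bl_angle summable_tm elf S6 lfac nm av
  two_le_nm av_triv)
open Pool.Agent.TH345.ET (ep bv vals ae_transcendental tendsto_ep hE hE_analytic den_ne)
open Pool.Agent.W350.Edge (divSet)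

/-- the combination of the coefficients -/
noncomputable def bm (b : ℕ → PP → ℂ) (m : ℕ →₀ ℤ) (x : PP) : ℂ :=
  ∑ j ∈ m.support, (m j : ℂ) * b j x

/-- the product of powers -/
noncomputable def hm (h : ℕ → ℂ → ℂ) (m : ℕ →₀ ℤ) (s : ℂ) : ℂ :=
  ∏ j ∈ m.support, h j s ^ (m j)

section
variable {b : ℕ → PP → ℂ} {M : ℕ → ℝ} {h : ℕ → ℂ → ℂ}

theorem norm_bm (hb : ∀ j x, ‖b j x‖ ≤ M j / (x.2 + 1 : ℕ)) (m : ℕ →₀ ℤ) (x : PP) :
    ‖bm b m x‖ ≤ (∑ j ∈ m.support, |(m j : ℝ)| * M j) / (x.2 + 1 : ℕ) := by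
  unfold bm
  refine (norm_sum_le _ _).trans ?_
  rw [Finset.sum_div]
  refine Finset.sum_le_sum fun j _ => ?_
  rw [norm_mul, Complex.norm_intCast, mul_div_assoc]
  exact mul_le_mul_of_nonneg_left (hb j x) (abs_nonneg _)

theorem FF_bm (hb : ∀ j x, ‖b j x‖ ≤ M j / (x.2 + 1 : ℕ)) (m : ℕ →₀ ℤ) {s : ℂ} (hs : 1 < s.re) :
    FF (bm b m) s = ∑ j ∈ m.support, (m j : ℂ) * FF (b j) s := by
  have h1 : tm (bm b m) s = fun x => ∑ j ∈ m.support, (m j : ℂ) * tm (b j) s x := by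
    funext x
    unfold tm bm
    rw [Finset.sum_mul]
    exact Finset.sum_congr rfl fun j _ => by ring
  unfold FF
  rw [h1, Summable.tsum_finsetSum (fun j _ => (summable_tm (hb j) hs).mul_left _)]
  exact Finset.sum_congr rfl fun j _ => tsum_mul_left

theorem prod_exp (m : ℕ →₀ ℤ) (f g : ℕ → ℂ) :
    (∏ j ∈ m.support, f j ^ (m j)) * Complex.exp (∑ j ∈ m.support, (m j : ℂ) * g j) =
      m.prod fun j k => (f j * Complex.exp (g j)) ^ k := by
  rw [Complex.exp_sum, Finsupp.prod, ← Finset.prod_mul_distrib]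
  refine Finset.prod_congr rfl fun j _ => ?_
  rw [mul_zpow, ← Complex.exp_int_mul]

theorem hm_exp (hb : ∀ j x, ‖b j x‖ ≤ M j / (x.2 + 1 : ℕ)) (m : ℕ →₀ ℤ) {s : ℂ} (hs : 1 < s.re) :
    hm h m s * Complex.exp (FF (bm b m) s) =
      m.prod fun j k => (h j s * Complex.exp (FF (b j) s)) ^ k := by
  rw [FF_bm hb m hs]
  exact prod_exp m (fun j => h j s) (fun j => FF (b j) s)

theorem re_gt (τ : ℝ) {x : ℝ} (hx : 0 < x) : 1 < (1 + τ * Complex.I + x : ℂ).re := by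
  simp [hx]

theorem bl_bm (hb : ∀ j x, ‖b j x‖ ≤ M j / (x.2 + 1 : ℕ)) (m : ℕ →₀ ℤ) {τ : ℝ}
    (h1 : ∀ j, τ ∉ divSet (ap (b j))) (h2 : τ ∉ divSet (ap (bm b m))) :
    bl (bm b m) τ = ∑ j ∈ m.support, (m j : ℂ) * bl (b j) τ := by
  have t1 := radial_x (norm_bm hb m) h2
  have t2 : Tendsto (fun x : ℝ => ∑ j ∈ m.support, (m j : ℂ) * FF (b j) (1 + τ * Complex.I + x))
      (𝓝[>] 0) (𝓝 (∑ j ∈ m.support, (m j : ℂ) * bl (b j) τ)) :=
    tendsto_finsetSum _ fun j _ => (radial_x (hb j) (h1 j)).const_mul _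
  refine tendsto_nhds_unique t1 (t2.congr' ?_)
  filter_upwards [self_mem_nhdsWithin] with x hx
  exact (FF_bm hb m (re_gt τ hx)).symm

theorem bv_bm (hb : ∀ j x, ‖b j x‖ ≤ M j / (x.2 + 1 : ℕ)) (m : ℕ →₀ ℤ) {τ : ℝ}
    (h1 : ∀ j, τ ∉ divSet (ap (b j))) (h2 : τ ∉ divSet (ap (bm b m))) :
    bv (bm b m) (hm h m) τ = m.prod fun j k => bv (b j) (h j) τ ^ k := by
  unfold bv
  rw [bl_bm hb m h1 h2]
  exact prod_exp m (fun j => h j (ep τ)) (fun j => bl (b j) τ)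

theorem hm_analytic (hh : ∀ j τ, AnalyticAt ℂ (h j) (ep τ)) (hne : ∀ j τ, h j (ep τ) ≠ 0)
    (m : ℕ →₀ ℤ) (τ : ℝ) : AnalyticAt ℂ (hm h m) (ep τ) := by
  unfold hm
  refine Finset.analyticAt_fun_prod _ fun j _ => ?_
  exact (hh j τ).fun_zpow (hne j τ)

/-- **Continuation or transcendence, multiplicative form.** -/
theorem ae_mult (hb : ∀ j x, ‖b j x‖ ≤ M j / (x.2 + 1 : ℕ))
    (hh : ∀ j τ, AnalyticAt ℂ (h j) (ep τ)) (hne : ∀ j τ, h j (ep τ) ≠ 0)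
    {A : Set (ℂ → ℂ)} (hA : A.Countable) : ∀ᵐ τ : ℝ, ∀ m : ℕ →₀ ℤ,
      (∃ φ : ℂ → ℂ, AnalyticAt ℂ φ (ep τ) ∧
        φ (ep τ) = (m.prod fun j k => bv (b j) (h j) τ ^ k) ∧
        ∀ᶠ s in 𝓝 (ep τ), 1 < s.re →
          (m.prod fun j k => (h j s * Complex.exp (FF (b j) s)) ^ k) = φ s) ∨
      Transcendental (IntermediateField.adjoin ℚ (vals A (ep τ)))
        (m.prod fun j k => bv (b j) (h j) τ ^ k) := by
  rw [ae_all_iff]
  intro m
  have h1 := ae_transcendental (norm_bm hb m) (hm_analytic hh hne m) hA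
  have h2 : ∀ᵐ τ : ℝ, ∀ j, τ ∉ divSet (ap (b j)) := ae_all_iff.2 fun j => ae_notMem (hb j)
  filter_upwards [h1, h2, ae_notMem (norm_bm hb m)] with τ h3 h4 h5
  rw [← bv_bm hb m h4 h5]
  rcases h3 with h3 | h3
  · left
    obtain ⟨φ, hφ, hev⟩ := h3
    refine ⟨φ, hφ, ?_, ?_⟩
    · have t1 : Tendsto (fun x : ℝ => φ (1 + τ * Complex.I + x)) (𝓝[>] 0) (𝓝 (φ (ep τ))) :=
        hφ.continuousAt.tendsto.comp (tendsto_ep τ)
      have t2 : Tendsto (fun x : ℝ => hm h m (1 + τ * Complex.I + x) *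
          Complex.exp (FF (bm b m) (1 + τ * Complex.I + x))) (𝓝[>] 0)
          (𝓝 (bv (bm b m) (hm h m) τ)) :=
        ((hm_analytic hh hne m τ).continuousAt.tendsto.comp (tendsto_ep τ)).mul
          ((Complex.continuous_exp.tendsto _).comp (radial_x (norm_bm hb m) h5))
      refine tendsto_nhds_unique t1 (t2.congr' ?_)
      have h6 := (tendsto_ep τ).eventually hev
      filter_upwards [h6, self_mem_nhdsWithin] with x hx hx0
      exact hx (re_gt τ hx0)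
    · filter_upwards [hev] with s hs hs1
      rw [← hs hs1, hm_exp hb m hs1]
  · right
    exact h3

end

/-- shifted coefficients -/
noncomputable def sh (b : PP → ℂ) (α : ℝ) (x : PP) : ℂ :=
  b x * (((x.1 : ℕ) : ℂ) ^ (-(α * Complex.I : ℂ))) ^ (x.2 + 1)

theorem norm_sh (b : PP → ℂ) (α : ℝ) (x : PP) : ‖sh b α x‖ = ‖b x‖ := by
  unfold sh
  rw [norm_mul, norm_pow, Complex.norm_natCast_cpow_of_pos x.1.2.pos]
  simp

theorem FF_sh (b : PP → ℂ) (α : ℝ) (s : ℂ) : FF (sh b α) s = FF b (s + α * Complex.I) := by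
  unfold FF
  refine tsum_congr fun x => ?_
  unfold tm sh
  have hp : ((x.1 : ℕ) : ℂ) ≠ 0 := Nat.cast_ne_zero.2 x.1.2.ne_zero
  rw [neg_add, Complex.cpow_add _ _ hp, mul_pow]
  ring

theorem hE_ne {K : Type} [Field K] [NumberField K]
    (W : HeightOneSpectrum (𝓞 K) → WeierstrassCurve (𝓞 K)) {s : ℂ} (hs : 1 ≤ s.re) :
    hE W s ≠ 0 := by
  unfold hE
  rw [Finset.prod_ne_zero_iff]
  intro v _
  unfold elf lfac
  refine inv_ne_zero (den_ne (two_le_nm v) (av_triv W v) ?_ ?_)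
  · split_ifs
    · simp
    · simp
  · have h1 : (s + 1 / 2 : ℂ).re = s.re + 1 / 2 := by simp
    rw [h1]
    linarith

theorem ep_re (τ : ℝ) : (ep τ).re = 1 := by
  unfold ep
  simp

end Pool.Agent.H789.HW
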